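import Mathlib

set_option autoImplicit false

/-! A set of natural numbers with a bounded number of elements in each dyadic interval has at most `O(X ^ ε)` elements up to
`X` (helper407). -/

namespace Pool.Agent.N407.MZ

open Set

theorem cnt_nat {Q : ℕ → Prop} {K N₀ : ℕ}
    (h : ∀ N : ℕ, N₀ ≤ N → {s : ℕ | (N ≤ s ∧ s ≤ 2 * N) ∧ Q s}.ncard ≤ K) (j X : ℕ) (hX : X ≤ 2 ^ j * (N₀ + 1)) :
    {t : ℕ | 1 ≤ t ∧ t ≤ X ∧ Q t}.ncard ≤ N₀ + 1 + K * j := by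
  have hfin : ∀ Y : ℕ, {t : ℕ | 1 ≤ t ∧ t ≤ Y ∧ Q t}.Finite := fun Y => (Set.finite_Iic Y).subset (fun t ht => ht.2.1)
  induction j generalizing X with
  | zero =>
    have hsub : {t : ℕ | 1 ≤ t ∧ t ≤ X ∧ Q t} ⊆ ((Finset.Icc 1 X : Finset ℕ) : Set ℕ) := by
      rintro t ⟨g1, g2, -⟩
      rw [Finset.mem_coe, Finset.mem_Icc]
      exact ⟨g1, g2⟩
    have h1 := Set.ncard_le_ncard hsub (Finset.finite_toSet _)
    rw [Set.ncard_coe_finset, Nat.card_Icc] at h1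
    rw [pow_zero, one_mul] at hX
    omega
  | succ j ih =>
    have h1 := ih (2 ^ j * (N₀ + 1)) le_rfl
    have h2 := h (2 ^ j * (N₀ + 1)) (by
      have : 1 ≤ 2 ^ j := Nat.one_le_two_pow
      nlinarith)
    have hsub : {t : ℕ | 1 ≤ t ∧ t ≤ X ∧ Q t} ⊆ {t : ℕ | 1 ≤ t ∧ t ≤ 2 ^ j * (N₀ + 1) ∧ Q t} ∪
        {s : ℕ | (2 ^ j * (N₀ + 1) ≤ s ∧ s ≤ 2 * (2 ^ j * (N₀ + 1))) ∧ Q s} := by
      rintro t ⟨g1, g2, g3⟩
      rcases le_total t (2 ^ j * (N₀ + 1)) with h3 | h3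
      · exact Or.inl ⟨g1, h3, g3⟩
      · refine Or.inr ⟨⟨h3, ?_⟩, g3⟩
        rw [pow_succ] at hX
        linarith
    have hfin2 : {s : ℕ | (2 ^ j * (N₀ + 1) ≤ s ∧ s ≤ 2 * (2 ^ j * (N₀ + 1))) ∧ Q s}.Finite :=
      (Set.finite_Iic (2 * (2 ^ j * (N₀ + 1)))).subset (fun t ht => ht.1.2)
    have h3 := (Set.ncard_le_ncard hsub ((hfin _).union hfin2)).trans (Set.ncard_union_le _ _)
    have h4 : K * (j + 1) = K * j + K := by ring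
    omega

theorem cnt {Q : ℕ → Prop} {K N₀ : ℕ}
    (h : ∀ N : ℕ, N₀ ≤ N → {s : ℕ | (N ≤ s ∧ s ≤ 2 * N) ∧ Q s}.ncard ≤ K) (ε : ℝ) (hε : 0 < ε) :
    ∃ C : ℝ, 0 ≤ C ∧ ∀ X : ℕ, 1 ≤ X → ({t : ℕ | 1 ≤ t ∧ t ≤ X ∧ Q t}.ncard : ℝ) ≤ C * (X : ℝ) ^ ε := by
  have hl2 : 0 < Real.log 2 := Real.log_pos one_lt_two
  refine ⟨(N₀ : ℝ) + 1 + K + K * (1 / (ε * Real.log 2)), by positivity, fun X hX => ?_⟩
  have hX1 : (1 : ℝ) ≤ X := by exact_mod_cast hX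
  have h1 : X ≤ 2 ^ (Nat.log 2 X + 1) * (N₀ + 1) := by
    have h2 := Nat.lt_pow_succ_log_self one_lt_two X
    have h3 : 2 ^ (Nat.log 2 X + 1) * 1 ≤ 2 ^ (Nat.log 2 X + 1) * (N₀ + 1) := Nat.mul_le_mul_left _ (by omega)
    rw [Nat.succ_eq_add_one] at h2
    omega
  have h2 := cnt_nat h (Nat.log 2 X + 1) X h1
  have h3 : ({t : ℕ | 1 ≤ t ∧ t ≤ X ∧ Q t}.ncard : ℝ) ≤ (N₀ : ℝ) + 1 + K * ((Nat.log 2 X : ℝ) + 1) := by
    exact_mod_cast h2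
  have h4 : (Nat.log 2 X : ℝ) ≤ 1 / (ε * Real.log 2) * (X : ℝ) ^ ε := by
    have h5 : (2 : ℝ) ^ (Nat.log 2 X) ≤ X := by exact_mod_cast Nat.pow_log_le_self 2 (by omega)
    have h6 := Real.log_le_log (by positivity) h5
    rw [Real.log_pow] at h6
    have h7 := Real.log_le_rpow_div (x := (X : ℝ)) (by linarith) hε
    have h8 : (Nat.log 2 X : ℝ) ≤ (X : ℝ) ^ ε / ε / Real.log 2 := by
      rw [le_div_iff₀ hl2]
      linarith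
    refine h8.trans (le_of_eq ?_)
    field_simp
  have hp1 : 1 ≤ (X : ℝ) ^ ε := Real.one_le_rpow hX1 hε.le
  have hN : (0 : ℝ) ≤ N₀ := Nat.cast_nonneg _
  have hK : (0 : ℝ) ≤ K := Nat.cast_nonneg _
  calc ({t : ℕ | 1 ≤ t ∧ t ≤ X ∧ Q t}.ncard : ℝ) ≤ (N₀ : ℝ) + 1 + K * ((Nat.log 2 X : ℝ) + 1) := h3
    _ ≤ ((N₀ : ℝ) + 1 + K) * 1 + K * (1 / (ε * Real.log 2) * (X : ℝ) ^ ε) := by
        have := mul_le_mul_of_nonneg_left h4 hK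
        linarith
    _ ≤ ((N₀ : ℝ) + 1 + K) * (X : ℝ) ^ ε + K * (1 / (ε * Real.log 2) * (X : ℝ) ^ ε) := by
        have := mul_le_mul_of_nonneg_left hp1 (show (0 : ℝ) ≤ (N₀ : ℝ) + 1 + K by positivity)
        linarith
    _ = _ := by ring

end Pool.Agent.N407.MZ
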