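import Pool.Agent.N733.TG.K
import Pool.Agent.N407.MZ.Cnt

set_option autoImplicit false

/-! Values of multiplicative functions and sets with a bounded number of elements in each dyadic interval (helper407). -/

namespace Pool.Agent.N407.MZ

open Finset
open Pool.Agent.N733.TG (LM Expanding keep_win_nat keep_good_nat expanding_pow step_sum)

/-- the windows around the values `G (f m)` contain no element of the set, for most `m` -/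
theorem near {Q : ℕ → Prop} {K N₁ : ℕ}
    (h : ∀ N : ℕ, N₁ ≤ N → {s : ℕ | (N ≤ s ∧ s ≤ 2 * N) ∧ Q s}.ncard ≤ K) {f : ℕ → ℕ} (hf : LM f) {G : ℕ → ℝ} {d : ℝ}
    (hG : Expanding G d) {κ : ℝ} (hκ : 0 ≤ κ) (hκ1 : κ < 1) (U : ℕ) : ∃ N₀ : ℕ, ∀ N : ℕ, N₀ ≤ N →
      ({m : ℕ | 1 ≤ m ∧ m ≤ N ∧ ¬ ∀ s : ℕ, |(s : ℝ) - G (f m)| ≤ (f m : ℝ) ^ κ → ¬ Q s}.ncard : ℝ) ≤
        N / Real.log N ^ U := by
  classical
  obtain ⟨N₀, hN₀⟩ := keep_win_nat {t : ℕ | Q t} hf hG (s := 0) (κ := κ) le_rfl hκ (by linarith) (fun ε hε => by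
    obtain ⟨C, -, hC⟩ := cnt h ε hε
    refine ⟨C, fun X hX => ?_⟩
    rw [zero_add]
    refine le_trans (le_of_eq ?_) (hC X hX)
    congr 1
    rw [← Set.ncard_coe_finset]
    congr 1
    ext t
    simp only [coe_filter, mem_Ioc, Set.mem_ofPred_eq]
    constructor
    · rintro ⟨⟨g1, g2⟩, g3⟩
      exact ⟨g1, g2, g3⟩
    · rintro ⟨g1, g2, g3⟩
      exact ⟨⟨g1, g2⟩, g3⟩) U
  refine ⟨N₀, fun N hN => le_trans ?_ (hN₀ N hN)⟩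
  have hfin : {m : ℕ | 1 ≤ m ∧ m ≤ N ∧ ∃ n : ℕ, (n = 0 ∨ n ∈ {t : ℕ | Q t}) ∧ |(n : ℝ) - G (f m)| ≤ (f m : ℝ) ^ κ}.Finite :=
    (Set.finite_Iic N).subset (fun m hm => hm.2.1)
  have hsub : {m : ℕ | 1 ≤ m ∧ m ≤ N ∧ ¬ ∀ s : ℕ, |(s : ℝ) - G (f m)| ≤ (f m : ℝ) ^ κ → ¬ Q s} ⊆
      {m : ℕ | 1 ≤ m ∧ m ≤ N ∧ ∃ n : ℕ, (n = 0 ∨ n ∈ {t : ℕ | Q t}) ∧ |(n : ℝ) - G (f m)| ≤ (f m : ℝ) ^ κ} := by
    rintro m ⟨g1, g2, g3⟩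
    push Not at g3
    obtain ⟨s, g4, g5⟩ := g3
    exact ⟨g1, g2, s, Or.inr g5, g4⟩
  exact_mod_cast Set.ncard_le_ncard hsub hfin

/-- `G` is nonnegative from some point on -/
theorem ev_nonneg {G : ℕ → ℝ} {d : ℝ} (hG : Expanding G d) : ∃ v₀ : ℕ, ∀ v : ℕ, v₀ ≤ v → 0 ≤ G v := by
  obtain ⟨-, ⟨a, ha, hstep⟩, -⟩ := hG
  refine ⟨⌈|G 1| / a⌉₊ + 1, fun v hv => ?_⟩
  have h1 := step_sum hstep le_rfl (show 1 ≤ v by omega)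
  have h2 : |G 1| / a ≤ ((v - 1 : ℕ) : ℝ) := (Nat.le_ceil _).trans (by exact_mod_cast (by omega : ⌈|G 1| / a⌉₊ ≤ v - 1))
  have h3 : |G 1| ≤ a * ((v - 1 : ℕ) : ℝ) := by
    rw [div_le_iff₀ ha] at h2
    linarith
  have h4 := neg_abs_le (G 1)
  linarith

/-- two properties of most `m` hold for some `m` with `G (f m) ≥ 0` -/
theorem ex_pos {f : ℕ → ℕ} (hf : LM f) {G : ℕ → ℝ} {d : ℝ} (hG : Expanding G d) {P Q : ℕ → Prop}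
    (hP : ∃ N₀ : ℕ, ∀ N : ℕ, N₀ ≤ N → ({m : ℕ | 1 ≤ m ∧ m ≤ N ∧ ¬ P m}.ncard : ℝ) ≤ N / Real.log N ^ 1)
    (hQ : ∃ N₀ : ℕ, ∀ N : ℕ, N₀ ≤ N → ({m : ℕ | 1 ≤ m ∧ m ≤ N ∧ ¬ Q m}.ncard : ℝ) ≤ N / Real.log N ^ 1) :
    ∃ m : ℕ, 1 ≤ m ∧ P m ∧ Q m ∧ 0 ≤ G (f m) := by
  classical
  obtain ⟨v₀, hv₀⟩ := ev_nonneg hG
  have hR : ∃ N₀ : ℕ, ∀ N : ℕ, N₀ ≤ N → ({m : ℕ | 1 ≤ m ∧ m ≤ N ∧ ¬ v₀ ≤ f m}.ncard : ℝ) ≤ N / Real.log N ^ 1 := by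
    obtain ⟨N₀, hN₀⟩ := keep_good_nat (fun _ => True) (fun n => v₀ ≤ n) hf (expanding_pow one_pos le_rfl) (s := 0) (κ := 0)
      le_rfl le_rfl (by norm_num) (fun ε hε => by
        refine ⟨v₀, fun X hX => ?_⟩
        have hX1 : (1 : ℝ) ≤ X := by exact_mod_cast hX
        have hsub : {t : ℕ | 1 ≤ t ∧ t ≤ X ∧ True ∧ ¬ v₀ ≤ t} ⊆ ((Finset.range v₀ : Finset ℕ) : Set ℕ) := by
          rintro t ⟨-, -, -, g4⟩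
          rw [mem_coe, mem_range]
          omega
        have h1 := Set.ncard_le_ncard hsub (Finset.finite_toSet _)
        rw [Set.ncard_coe_finset, card_range] at h1
        have h2 : ({t : ℕ | 1 ≤ t ∧ t ≤ X ∧ True ∧ ¬ v₀ ≤ t}.ncard : ℝ) ≤ v₀ := by exact_mod_cast h1
        have h3 : 1 ≤ (X : ℝ) ^ (0 + ε) := Real.one_le_rpow hX1 (by linarith)
        have h4 : (0 : ℝ) ≤ v₀ := Nat.cast_nonneg _
        nlinarith) 1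
    refine ⟨N₀, fun N hN => le_trans ?_ (hN₀ N hN)⟩
    have hfin : {m : ℕ | 1 ≤ m ∧ m ≤ N ∧ ¬ ∀ n : ℕ, 1 ≤ n → True →
        |(n : ℝ) - (fun v : ℕ => 1 * (v : ℝ) ^ (1 : ℝ)) (f m)| ≤ (f m : ℝ) ^ (0 : ℝ) → v₀ ≤ n}.Finite :=
      (Set.finite_Iic N).subset (fun m hm => hm.2.1)
    have hsub : {m : ℕ | 1 ≤ m ∧ m ≤ N ∧ ¬ v₀ ≤ f m} ⊆ {m : ℕ | 1 ≤ m ∧ m ≤ N ∧ ¬ ∀ n : ℕ, 1 ≤ n → True →
        |(n : ℝ) - (fun v : ℕ => 1 * (v : ℝ) ^ (1 : ℝ)) (f m)| ≤ (f m : ℝ) ^ (0 : ℝ) → v₀ ≤ n} := by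
      rintro m ⟨g1, g2, g3⟩
      refine ⟨g1, g2, fun hcon => g3 (hcon (f m) (hf.pos m g1) trivial ?_)⟩
      simp only [one_mul, Real.rpow_one, sub_self, abs_zero, Real.rpow_zero]
      exact zero_le_one
    exact Nat.cast_le.2 (Set.ncard_le_ncard hsub hfin)
  obtain ⟨N₁, hN₁⟩ := hP
  obtain ⟨N₂, hN₂⟩ := hQ
  obtain ⟨N₃, hN₃⟩ := hR
  have hlog := (Real.tendsto_log_atTop.comp (tendsto_natCast_atTop_atTop (R := ℝ))).eventually_ge_atTop 4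
  rw [Filter.eventually_atTop] at hlog
  obtain ⟨N₄, hN₄⟩ := hlog
  obtain ⟨N, hN⟩ : ∃ N, N = N₁ + N₂ + N₃ + N₄ + 1 := ⟨_, rfl⟩
  have b1 := hN₁ N (by omega)
  have b2 := hN₂ N (by omega)
  have b3 := hN₃ N (by omega)
  have b4 : 4 ≤ Real.log N := hN₄ N (by omega)
  have hN0 : (0 : ℝ) < N := by
    have : 0 < N := by omega
    exact_mod_cast this
  rw [pow_one] at b1 b2 b3
  have b5 : (N : ℝ) / Real.log N ≤ N / 4 := div_le_div_of_nonneg_left hN0.le (by norm_num) b4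
  by_contra hcon
  push Not at hcon
  have hfin : ∀ R : ℕ → Prop, {m : ℕ | 1 ≤ m ∧ m ≤ N ∧ ¬ R m}.Finite :=
    fun R => (Set.finite_Iic N).subset (fun m hm => hm.2.1)
  have hsub : ((Finset.Icc 1 N : Finset ℕ) : Set ℕ) ⊆ {m : ℕ | 1 ≤ m ∧ m ≤ N ∧ ¬ P m} ∪
      ({m : ℕ | 1 ≤ m ∧ m ≤ N ∧ ¬ Q m} ∪ {m : ℕ | 1 ≤ m ∧ m ≤ N ∧ ¬ v₀ ≤ f m}) := by
    intro m hm
    rw [mem_coe, mem_Icc] at hm
    by_cases h1 : P m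
    · by_cases h2 : Q m
      · refine Or.inr (Or.inr ⟨hm.1, hm.2, fun h3 => ?_⟩)
        have h4 := hcon m hm.1 h1 h2
        have h5 := hv₀ (f m) h3
        linarith
      · exact Or.inr (Or.inl ⟨hm.1, hm.2, h2⟩)
    · exact Or.inl ⟨hm.1, hm.2, h1⟩
  have h1 := (Set.ncard_le_ncard hsub ((hfin P).union ((hfin Q).union (hfin _)))).trans
    ((Set.ncard_union_le _ _).trans (Nat.add_le_add_left (Set.ncard_union_le _ _) _))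
  rw [Set.ncard_coe_finset, Nat.card_Icc, Nat.add_sub_cancel] at h1
  have h2 : (N : ℝ) ≤ ({m : ℕ | 1 ≤ m ∧ m ≤ N ∧ ¬ P m}.ncard : ℝ) + (({m : ℕ | 1 ≤ m ∧ m ≤ N ∧ ¬ Q m}.ncard : ℝ) +
      ({m : ℕ | 1 ≤ m ∧ m ≤ N ∧ ¬ v₀ ≤ f m}.ncard : ℝ)) := by exact_mod_cast h1
  linarith

/-- if `G v ≥ 0` and `v ≥ 1` there is a natural number in the window around `G v` -/
theorem ex_window {G : ℕ → ℝ} {v : ℕ} {κ : ℝ} (hκ : 0 ≤ κ) (hv : 1 ≤ v) (h : 0 ≤ G v) :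
    ∃ s : ℕ, |(s : ℝ) - G v| ≤ (v : ℝ) ^ κ := by
  refine ⟨⌊G v⌋₊, ?_⟩
  have h1 := Nat.floor_le h
  have h2 := Nat.lt_floor_add_one (G v)
  have h3 : (1 : ℝ) ≤ (v : ℝ) ^ κ := Real.one_le_rpow (by exact_mod_cast hv) hκ
  rw [abs_le]
  constructor
  · linarith
  · linarith

end Pool.Agent.N407.MZ
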