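import Pool.Agent.N760.IT.C
import Pool.Agent.N407.MZ.Ex

set_option autoImplicit false

/-! Orbits of Euler's function and sets with a bounded number of elements in each dyadic interval (helper407). -/

namespace Pool.Agent.N407.MZ

open Finset Filter
open Pool.Agent.N733.TG (LM Expanding expanding_pow)
open Pool.Agent.N760.IT (orb orbit_windows)
open Pool.Agent.N826.IT.Orb (AlmostAll almostAll_iff almostAll_mono almostAll_and)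

/-- the count for real bounds, with zero -/
theorem cnt_real {Q : ℕ → Prop} {K N₁ : ℕ}
    (h : ∀ N : ℕ, N₁ ≤ N → {s : ℕ | (N ≤ s ∧ s ≤ 2 * N) ∧ Q s}.ncard ≤ K) (ε : ℝ) (hε : 0 < ε) :
    ∃ C : ℝ, ∀ X : ℝ, 1 ≤ X → {t : ℕ | t ∈ {t : ℕ | Q t} ∧ (t : ℝ) ≤ X}.Finite ∧
      ({t : ℕ | t ∈ {t : ℕ | Q t} ∧ (t : ℝ) ≤ X}.ncard : ℝ) ≤ C * X ^ ε := by
  obtain ⟨C, hC0, hC⟩ := cnt h ε hε
  refine ⟨C + 1, fun X hX => ?_⟩
  have hX1 : 1 ≤ ⌊X⌋₊ := Nat.le_floor (by exact_mod_cast hX)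
  have hfin : {t : ℕ | t ∈ {t : ℕ | Q t} ∧ (t : ℝ) ≤ X}.Finite :=
    (Set.finite_Iic ⌊X⌋₊).subset (fun t ht => Nat.le_floor ht.2)
  refine ⟨hfin, ?_⟩
  have hfin2 : {t : ℕ | 1 ≤ t ∧ t ≤ ⌊X⌋₊ ∧ Q t}.Finite := (Set.finite_Iic ⌊X⌋₊).subset (fun t ht => ht.2.1)
  have hsub : {t : ℕ | t ∈ {t : ℕ | Q t} ∧ (t : ℝ) ≤ X} ⊆ {0} ∪ {t : ℕ | 1 ≤ t ∧ t ≤ ⌊X⌋₊ ∧ Q t} := by
    rintro t ⟨g1, g2⟩
    rcases Nat.eq_zero_or_pos t with h0 | h0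
    · exact Or.inl h0
    · exact Or.inr ⟨h0, Nat.le_floor g2, g1⟩
  have h1 := (Set.ncard_le_ncard hsub ((Set.finite_singleton 0).union hfin2)).trans (Set.ncard_union_le _ _)
  rw [Set.ncard_singleton] at h1
  have h2 : ({t : ℕ | t ∈ {t : ℕ | Q t} ∧ (t : ℝ) ≤ X}.ncard : ℝ) ≤ 1 + ({t : ℕ | 1 ≤ t ∧ t ≤ ⌊X⌋₊ ∧ Q t}.ncard : ℝ) := by
    exact_mod_cast h1
  have h3 : ((⌊X⌋₊ : ℕ) : ℝ) ^ ε ≤ X ^ ε :=
    Real.rpow_le_rpow (Nat.cast_nonneg _) (Nat.floor_le (by linarith)) hε.le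
  have h4 := mul_le_mul_of_nonneg_left h3 hC0
  have h5 : 1 ≤ X ^ ε := Real.one_le_rpow hX hε.le
  have h6 := hC _ hX1
  linarith

/-- the windows around the members of almost all orbits contain no element of the set -/
theorem near_orb {Q : ℕ → Prop} {K N₁ : ℕ}
    (h : ∀ N : ℕ, N₁ ≤ N → {s : ℕ | (N ≤ s ∧ s ≤ 2 * N) ∧ Q s}.ncard ≤ K) {f : ℕ → ℕ} (hf : LM f) {G : ℕ → ℝ} {d : ℝ}
    (hG : Expanding G d) {κ : ℝ} (hκ : 0 ≤ κ) (hκ1 : κ < 1) : ∃ L : ℕ → ℕ, Tendsto L atTop atTop ∧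
      AlmostAll (fun m => ∀ k ≤ L m, ∀ s : ℕ, |(s : ℝ) - G (orb f k m)| ≤ (orb f k m : ℝ) ^ κ → ¬ Q s) := by
  obtain ⟨L, hL, hL2⟩ := orbit_windows {t : ℕ | Q t} (fun t : ℕ => (t : ℝ)) hf hG (s := 0) (κ := κ) le_rfl hκ (by linarith)
    (fun ε hε => by
      obtain ⟨C, hC⟩ := cnt_real h ε hε
      refine ⟨C, fun X hX => ?_⟩
      rw [zero_add]
      exact hC X hX)
  exact ⟨L, hL, almostAll_mono hL2 (fun m hm k hk s hs hQ => hm k hk s hQ hs)⟩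

theorem ex_of_almostAll {P : ℕ → Prop} (h : AlmostAll P) : ∃ m : ℕ, 1 ≤ m ∧ P m := by
  classical
  obtain ⟨N₀, hN₀⟩ := (almostAll_iff P).1 h (1 / 2) (by norm_num)
  obtain ⟨N, hN⟩ : ∃ N, N = N₀ + 1 := ⟨_, rfl⟩
  have h1 := hN₀ N (by omega)
  have hN0 : (0 : ℝ) < N := by
    have : 0 < N := by omega
    exact_mod_cast this
  by_contra hcon
  push Not at hcon
  have h2 : (Icc 1 N).filter (fun m => ¬ P m) = Icc 1 N := by
    rw [filter_eq_self]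
    intro m hm
    exact hcon m (mem_Icc.1 hm).1
  have h3 : (((Icc 1 N).filter (fun m => ¬ P m)).card : ℝ) = N := by
    rw [h2, Nat.card_Icc, Nat.add_sub_cancel]
  have h4 : (N : ℝ) ≤ 1 / 2 * N := by
    rw [← h3]
    refine le_trans (le_of_eq ?_) (h1.trans (le_of_eq ?_))
    · congr!
    · rw [h3]
  linarith

/-- a property of almost all `m` holds for some `m` with `G (f m) ≥ 0` -/
theorem ex_pos_orb {f : ℕ → ℕ} (hf : LM f) {G : ℕ → ℝ} {d : ℝ} (hG : Expanding G d) {P : ℕ → Prop} (hP : AlmostAll P) :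
    ∃ m : ℕ, 1 ≤ m ∧ P m ∧ 0 ≤ G (f m) := by
  obtain ⟨v₀, hv₀⟩ := ev_nonneg hG
  obtain ⟨L, -, hL⟩ := near_orb (Q := fun s => s < v₀) (K := 0) (N₁ := v₀) (fun N hN => by
    have : {s : ℕ | (N ≤ s ∧ s ≤ 2 * N) ∧ s < v₀} = ∅ := by
      ext s
      simp only [Set.mem_ofPred_eq, Set.mem_empty_iff_false, iff_false]
      omega
    rw [this, Set.ncard_empty]) hf (expanding_pow one_pos le_rfl) (κ := 0) le_rfl one_pos
  obtain ⟨m, hm1, h1, h2⟩ := ex_of_almostAll (almostAll_and hP hL)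
  refine ⟨m, hm1, h1, hv₀ _ ?_⟩
  by_contra hcon
  refine h2 0 (Nat.zero_le _) (f m) ?_ (by omega)
  have e : orb f 0 m = f m := rfl
  rw [e]
  simp only [one_mul, Real.rpow_one, sub_self, abs_zero, Real.rpow_zero]
  exact zero_le_one

end Pool.Agent.N407.MZ
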